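import Mathlib
import Pool.Agent.H.MP_6e75db_lc.A

set_option autoImplicit false

namespace Pool.Agent.H.MP_63e8ca_gt

open Set Function Cardinal Pool.Agent.H.MP_77d395_lc Pool.Agent.H.MP_6e75db_lc

/-- weak HFC subspaces of a Cantor cube -/
def HFCw {ι : Type} [LinearOrder ι] (X : Set (ι → Bool)) : Prop :=
  ∀ (n : ℕ) (𝓕 : Set (Finset ι)), (∀ F ∈ 𝓕, F.card = n) → ¬ 𝓕.Countable → 𝓕.PairwiseDisjoint id →
    ∃ 𝓖 ⊆ 𝓕, 𝓖.Countable ∧ ∀ b : Fin n → Bool,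
      (X \ ⋃ F ∈ 𝓖, {x | ∃ e : F.card = n, ∀ i, x (F.orderEmbOfFin e i) = b i}).Countable

open Classical in
theorem gen {ι : Type} [Countable ι] (E : Set I) (n : ι → ℕ) (A : ∀ i, ℕ → Fin (n i) → I)
    (v : ∀ i, Fin (n i) → Bool) (S : ι → Set ℕ) : ∃ c : I → Bool, (∀ x ∈ E, c x = true) ∧
      ∀ i, (∀ K : Finset I, ∃ k ∈ S i, Injective (A i k) ∧ ∀ j, A i k j ∉ E ∧ A i k j ∉ K) →
        ∃ k ∈ S i, ∀ j, c (A i k j) = v i j := by
  obtain ⟨e, he⟩ := exists_surjective_nat (Option ι)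
  have : ∀ (i : Option ι) (K : Finset I), ∃ p : Finset I × (I → Bool), (∀ x ∈ p.1, x ∉ E ∧ x ∉ K) ∧
      ∀ a ∈ i, (∀ K : Finset I, ∃ k ∈ S a, Injective (A a k) ∧ ∀ j, A a k j ∉ E ∧ A a k j ∉ K) →
        ∃ k ∈ S a, ∀ j, A a k j ∈ p.1 ∧ p.2 (A a k j) = v a j := fun i K => by
    by_cases c : ∃ a ∈ i, ∃ k ∈ S a, Injective (A a k) ∧ ∀ j, A a k j ∉ E ∧ A a k j ∉ K
    · obtain ⟨a, e, k, k1, k2, k3⟩ := c
      cases e
      exact ⟨(Finset.univ.image (A a k), extend (A a k) (v a) fun _ => true), by simpa using k3,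
        fun _ e _ => by cases e; exact ⟨k, k1, fun j => ⟨by simp, k2.extend_apply (v a) (fun _ => true) j⟩⟩⟩
    exact ⟨(∅, fun _ => true), by simp, fun a p q => (c ⟨a, p, q K⟩).elim⟩
  choose p p1 p2 using this
  let K : ℕ → Finset I := Nat.rec ∅ fun m K => K ∪ (p (e m) K).1
  have m : Monotone K := monotone_nat_of_le_succ fun _ => Finset.subset_union_left
  refine ⟨fun x => if h : ∃ m, x ∈ (p (e m) (K m)).1 then (p (e h.choose) (K h.choose)).2 x else true,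
    fun x q => dif_neg fun ⟨m, c⟩ => (p1 _ _ x c).1 q, fun i q => ?_⟩
  obtain ⟨l, hl⟩ := he (some i)
  refine (p2 (e l) (K l) i hl q).imp fun k c => ⟨c.1, fun j => ?_⟩
  have h : ∃ m, A i k j ∈ (p (e m) (K m)).1 := ⟨l, (c.2 j).1⟩
  have f : ∀ a b, A i k j ∈ (p (e a) (K a)).1 → A i k j ∈ (p (e b) (K b)).1 → ¬ a < b :=
    fun a b u w l => (p1 _ _ _ w).2 (m l (Finset.mem_union_right _ u))
  beta_reduce
  rw [dif_pos h, le_antisymm (not_lt.1 (f _ _ (c.2 j).1 h.choose_spec))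
    (not_lt.1 (f _ _ h.choose_spec (c.2 j).1))]
  exact (c.2 j).2

def Ds {T β : Type} (φ : T → I → β) (G : Set T) : Prop :=
  ∀ a ∈ G, ∃ K : Finset I, ∀ b ∈ G, (∀ y ∈ K, φ b y = φ a y) → b = a

open Classical in
theorem lv {T β : Type} [Uncountable T] (φ : T → I → β) (hs : ∀ S : Set T, ∃ R ⊆ S, R.Countable ∧
    ∀ a ∈ S, ∀ K : Finset I, ∃ b ∈ R, ∀ y ∈ K, φ b y = φ a y) :
    ∃ R : Set T, R.Countable ∧ ∀ 𝒢 : Finset (Set T), (∀ G ∈ 𝒢, Ds φ G) → ∃ a ∈ R, ∀ G ∈ 𝒢, a ∉ G := by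
  choose R r1 r2 r3 using hs
  let C : ℕ → Set T := Nat.rec ∅ fun _ C => C ∪ R Cᶜ
  have c : ∀ k, (C k).Countable := fun k => by
    induction k with
    | zero => exact countable_empty
    | succ k ih => exact ih.union (r2 _)
  have : ∀ k (𝒢 : Finset (Set T)), 𝒢.card ≤ k → (∀ G ∈ 𝒢, Ds φ G) → ∀ a ∉ C k, ∀ K : Finset I,
      ∃ b, (b = a ∨ b ∈ C k) ∧ (∀ y ∈ K, φ b y = φ a y) ∧ ∀ G ∈ 𝒢, b ∉ G := fun k => by
    induction k with
    | zero => exact fun 𝒢 l _ a _ K => ⟨a, .inl rfl, fun _ _ => rfl, by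
        simp [Finset.card_eq_zero.1 (Nat.le_zero.1 l)]⟩
    | succ k ih =>
      intro 𝒢 l d a n K
      by_cases q : ∃ G ∈ 𝒢, a ∈ G
      swap
      · exact ⟨a, .inl rfl, fun _ _ => rfl, fun G p r => q ⟨G, p, r⟩⟩
      obtain ⟨G, g1, g2⟩ := q
      obtain ⟨L, hL⟩ := d G g1 a g2
      obtain ⟨b, b1, b2⟩ := r3 (C k)ᶜ a (fun c => n (.inl c)) (K ∪ L)
      obtain ⟨c, c1, c2, c3⟩ := ih (𝒢.erase G) (by rw [Finset.card_erase_of_mem g1]; omega)
        (fun H p => d H (Finset.mem_of_mem_erase p)) b (r1 _ b1) (K ∪ L)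
      have m : c ∈ C (k + 1) := c1.elim (fun e => .inr (e ▸ b1)) .inl
      have e := fun y p => (c2 y p).trans (b2 y p)
      exact ⟨c, .inr m, fun y p => e y (by simp [p]), fun H p r => c3 H (Finset.mem_erase.2
        ⟨fun f => n (hL c (f ▸ r) (fun y p => e y (by simp [p])) ▸ m), p⟩) r⟩
  refine ⟨⋃ k, C k, countable_iUnion c, fun 𝒢 d => ?_⟩
  obtain ⟨a, n⟩ := (ne_univ_iff_exists_notMem (C 𝒢.card)).1 fun e => not_countable_univ (e ▸ c _)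
  obtain ⟨b, b1, -⟩ := r3 (C 𝒢.card)ᶜ a n ∅
  obtain ⟨c, c1, -, c3⟩ := this _ 𝒢 le_rfl d b (r1 _ b1) ∅
  exact ⟨c, c1.elim (fun e => mem_iUnion.2 ⟨𝒢.card + 1, .inr (e ▸ b1)⟩) (mem_iUnion.2 ⟨_, ·⟩), c3⟩

open Classical in
theorem hs {m : I → I → Bool} (H : ∀ n (A : ℕ → Fin n → I), Injective (uncurry A) → ∃ δ,
    ∀ K : Finset I, (∀ y ∈ K, δ < y) → ∀ w : I → Fin n → Bool,
      {i | ∀ y ∈ K, ∀ j, m (A i j) y = w y j}.Infinite) {T : Type} {n : ℕ} (τ : T → Fin n → I)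
    (i : Injective (uncurry τ)) (S : Set T) : ∃ R ⊆ S, R.Countable ∧ ∀ a ∈ S, ∀ K : Finset I,
      ∃ b ∈ R, ∀ y ∈ K, (fun j => m (τ b j) y) = fun j => m (τ a j) y := by
  let P : Finset (I × (Fin n → Bool)) → Set T := fun σ => {a ∈ S | ∀ p ∈ σ, ∀ j, m (τ a j) p.1 = p.2 j}
  have : ∀ σ, ∃ R ⊆ P σ, R.Countable ∧ ∃ δ, ∀ a ∈ P σ, ∀ K : Finset I, (∀ y ∈ K, δ < y) →
      ∃ b ∈ R, ∀ y ∈ K, ∀ j, m (τ b j) y = m (τ a j) y := fun σ => by
    rcases (P σ).finite_or_infinite with f | f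
    · exact ⟨_, Subset.rfl, f.countable, o, fun a p _ _ => ⟨a, p, fun _ _ _ => rfl⟩⟩
    obtain ⟨δ, h⟩ := H n (fun k => τ (f.natEmbedding _ k)) (i.comp ((Subtype.val_injective.comp
      (f.natEmbedding _).injective).prodMap injective_id))
    exact ⟨_, range_subset_iff.2 fun k => (f.natEmbedding _ k).2, countable_range _, δ,
      fun a _ K l => let ⟨k, e⟩ := (h K l fun y j => m (τ a j) y).nonempty; ⟨_, ⟨k, rfl⟩, e⟩⟩
  choose R r1 r2 d r3 using this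
  have c : ∀ γ, {σ : Finset (I × (Fin n → Bool)) | ∀ p ∈ σ, p.1 ≤ γ}.Countable := fun γ =>
    ((countable_ofPred_finite_subset ((cI γ).prod countable_univ)).preimage
      Finset.coe_injective).mono fun σ p => And.intro σ.finite_toSet fun q r => ⟨p q r, trivial⟩
  choose G hG using fun γ => bd ((c γ).image d)
  obtain ⟨δ, d1, d2⟩ := clo G
  refine ⟨⋃ σ ∈ {σ | ∀ p ∈ σ, p.1 ≤ δ}, R σ, iUnion₂_subset fun σ _ a p => (r1 σ p).1,
    (c δ).biUnion fun σ _ => r2 σ, fun a p K => ?_⟩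
  let σ := (K.filter (· < δ)).image fun y => (y, fun j => m (τ a j) y)
  obtain ⟨γ, g1, g2⟩ : ∃ γ < δ, ∀ p ∈ σ, p.1 ≤ γ := by
    obtain ⟨γ, g1, g2⟩ := (insert o (K.filter (· < δ))).exists_max_image id (by simp)
    exact ⟨γ, (Finset.mem_insert.1 g1).elim (· ▸ d1) fun q => (Finset.mem_filter.1 q).2,
      Finset.forall_mem_image.2 fun y q => g2 y (Finset.mem_insert_of_mem q)⟩
  obtain ⟨b, b1, b2⟩ := r3 σ a ⟨p, Finset.forall_mem_image.2 fun _ _ _ => rfl⟩ (K.filter (δ ≤ ·))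
    fun y q => ((hG γ _ ⟨σ, g2, rfl⟩).trans (d2 γ g1)).trans_le (Finset.mem_filter.1 q).2
  exact ⟨b, mem_biUnion (fun p q => (g2 p q).trans g1.le) b1, fun y q => funext fun j =>
    (lt_or_ge y δ).elim (fun l => (r1 σ b1).2 _ (Finset.mem_image_of_mem _
      (Finset.mem_filter.2 ⟨q, l⟩)) j) fun l => b2 y (Finset.mem_filter.2 ⟨q, l⟩) j⟩

open Classical in
noncomputable def mt (f : I → (I → Bool) × (I → Bool)) (t x : I) : Bool :=
  if x < t then (f t).1 x else if t < x then (f x).2 t else false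

def Dc (m : I → I → Bool) (s : I) (E : Set I) : Prop := ∀ a ∈ E, a < s ∧ ∃ K : Finset I,
  (∀ y ∈ K, y < s) ∧ ∀ b ∈ E, (∀ y ∈ K, m b y = m a y) → b = a

open Classical in
theorem mx (hc : (𝔠 : Cardinal.{0}) = ℵ₁) : ∃ m : I → I → Bool, (∀ s, m s s = false) ∧
    (∀ n (A : ℕ → Fin n → I), Injective (uncurry A) → ∃ δ, ∀ K : Finset I, (∀ y ∈ K, δ < y) →
      ∀ w : I → Fin n → Bool, {i | ∀ y ∈ K, ∀ j, m (A i j) y = w y j}.Infinite) ∧
    ∃ E : I → Set I, (∀ s, Dc m s (E s) ∧ ∀ x ∈ E s, m s x = true) ∧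
      (∀ (g : ℕ → I) γ, ∃ s > γ, Dc m s (range g) → E s = range g) ∧
      ∀ n (A : ℕ → Fin n → I), ∃ δ, ∀ s > δ, ∀ b : Fin n → Bool, (∀ K : Finset I, ∃ k,
        Injective (A k) ∧ ∀ j, A k j ∉ E s ∧ A k j ∉ K) → ∃ k, ∀ j, m s (A k j) = b j := by
  have a : (ℵ₁ : Cardinal.{0}) ^ ℵ₀ = ℵ₁ := by rw [← hc, continuum_power_aleph0]
  obtain ⟨i⟩ := (le_def (Σ n, ℕ → Fin n → I) I).1 (by
    refine (mk_sigma _).trans_le ((sum_le_sum _ (fun _ => ℵ₁) fun n => ?_).trans (by simp))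
    simp only [← power_def, ← power_mul, mkI]
    exact (power_le_power_left (aleph_pos 1).ne' (mul_le_of_le le_rfl mk_le_aleph0
      mk_le_aleph0)).trans a.le)
  have : Nonempty (Σ n, ℕ → Fin n → I) := ⟨⟨0, fun _ => Fin.elim0⟩⟩
  have he := invFun_surjective i.injective
  generalize invFun i = e at he
  obtain ⟨θ⟩ := (le_def (I × (ℕ → I)) I).1 (by simp [a])
  let En : (I → I → Bool) → I → Set I := fun m s =>
    if Dc m s (range (invFun θ s).2) then range (invFun θ s).2 else ∅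
  have : ∀ s (m : I → I → Bool), ∃ y : (I → Bool) × (I → Bool), ((∀ x ∈ En m s, y.1 x = true) ∧
      ∀ α < s, ∀ b : Fin (e α).1 → Bool, (∀ K : Finset I, ∃ k ∈ Set.univ, Injective ((e α).2 k) ∧ ∀ j, (e α).2 k j ∉ En m s ∧
        (e α).2 k j ∉ K) → ∃ k ∈ Set.univ, ∀ j, y.1 ((e α).2 k j) = b j) ∧
      ∀ α < s, ∀ (q : Finset (Iio s × (Fin (e α).1 → Bool))) (b : Fin (e α).1 → Bool) l,
        Injective (uncurry (e α).2) →
        {i | ∀ p ∈ q, ∀ j, m ((e α).2 i j) p.1 = p.2 j}.Infinite → ∃ k ∈ {i | l ≤ i ∧ ∀ p ∈ q, ∀ j,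
          m ((e α).2 i j) p.1 = p.2 j}, ∀ j, y.2 ((e α).2 k j) = b j := fun s m => by
    have := ((cI s).mono Iio_subset_Iic_self).to_subtype
    obtain ⟨c, c1, c2⟩ := gen (ι := Σ α : Iio s, Fin (e α).1 → Bool) (En m s) (fun p => (e p.1).1)
      (fun p => (e p.1).2) (·.2) fun _ => Set.univ
    obtain ⟨d, -, d2⟩ := gen (ι := Σ α : Iio s, Finset (Iio s × (Fin (e α).1 → Bool)) ×
      (Fin (e α).1 → Bool) × ℕ) ∅ (fun p => (e p.1).1) (fun p => (e p.1).2) (·.2.2.1)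
      fun p => {i | p.2.2.2 ≤ i ∧ ∀ r ∈ p.2.1, ∀ j, m ((e p.1).2 i j) r.1 = r.2 j}
    refine ⟨(c, d), ⟨c1, fun α l b => c2 ⟨⟨α, l⟩, b⟩⟩, fun α l q b k u w => d2 ⟨⟨α, l⟩, q, b, k⟩
      fun K => ?_⟩
    obtain ⟨n, n1, n2⟩ := w.exists_notMem_finite ((finite_Iio k).union
      ((K.finite_toSet.preimage u.injOn).image Prod.fst))
    exact ⟨n, ⟨not_lt.1 fun c => n2 (.inl c), n1⟩, fun _ _ c => (Prod.mk.inj
      (@u (n, _) (n, _) c)).2, fun j => ⟨id, fun c => n2 (.inr ⟨(n, j), c, rfl⟩)⟩⟩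
  choose y y1 y2 using this
  let f : I → (I → Bool) × (I → Bool) := wellFounded_lt.fix fun s ih =>
    y s (mt fun t => if h : t < s then ih t h else default)
  let M : I → I → I → Bool := fun s => mt fun t => if t < s then f t else default
  have e1 : ∀ s, f s = y s (M s) := fun s => wellFounded_lt.fix_eq _ s
  have e2 : ∀ s, ∀ t < s, ∀ x < s, M s t x = mt f t x := fun s t p x q => by simp [M, mt, p, q]
  have e3 : ∀ s E, Dc (M s) s E ↔ Dc (mt f) s E := fun s E => ⟨fun c a p => ⟨(c a p).1,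
    (c a p).2.imp fun K k => ⟨k.1, fun b q r => k.2 b q fun y u => by
      rw [e2 s b (c b q).1 y (k.1 y u), e2 s a (c a p).1 y (k.1 y u), r y u]⟩⟩, fun c a p =>
    ⟨(c a p).1, (c a p).2.imp fun K k => ⟨k.1, fun b q r => k.2 b q fun y u => by
      rw [← e2 s b (c b q).1 y (k.1 y u), ← e2 s a (c a p).1 y (k.1 y u), r y u]⟩⟩⟩
  have e4 : ∀ s, Dc (mt f) s (En (M s) s) := fun s => by
    simp only [En]
    split_ifs with c
    exacts [(e3 _ _).1 c, fun _ p => p.elim]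
  have bb : ∀ α, ∃ δ, α < δ ∧ ∀ k j, (e α).2 k j < δ := fun α => (bd ((countable_range
    (uncurry (e α).2)).insert α)).imp fun _ c => ⟨c _ (.inl rfl), fun k j => c _ (.inr ⟨(k, j), rfl⟩)⟩
  refine ⟨mt f, fun s => by simp [mt], fun n A => ?_, fun s => En (M s) s, fun s => ⟨e4 s, fun x p =>
    (if_pos (e4 s x p).1).trans (e1 s ▸ (y1 s _).1 x p)⟩, fun g γ => ?_, fun n A => ?_⟩
  · obtain ⟨α, h⟩ := he ⟨n, A⟩
    obtain ⟨δ, d1, d2⟩ := bb α
    have := y2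
    obtain rfl : (e α).1 = n := congrArg Sigma.fst h
    obtain rfl : (e α).2 = A := eq_of_heq (Sigma.mk.inj h).2
    refine fun u => ⟨δ, fun K l w => ?_⟩
    induction K using Finset.induction_on_max with
    | empty => simpa using infinite_univ
    | insert x K p ih =>
      have l1 := l x (by simp)
      have r : {i | ∀ r ∈ K.attach.image fun y : {y // y ∈ K} => ((⟨y.1, p y.1 y.2⟩ : Iio x), w y.1), ∀ j,
          M x ((e α).2 i j) r.1 = r.2 j} = {i | ∀ y ∈ K, ∀ j, mt f ((e α).2 i j) y = w y j} := by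
        ext i
        rw [mem_ofPred_eq, Finset.forall_mem_image, mem_ofPred_eq]
        exact ⟨fun c y q j => e2 x _ ((d2 i j).trans l1) y (p y q) ▸ c (Finset.mem_attach _ ⟨y, q⟩) j,
          fun c y _ j => (e2 x _ ((d2 i j).trans l1) y.1 (p _ y.2)).trans (c _ y.2 j)⟩
      refine infinite_of_forall_exists_gt fun k => ?_
      obtain ⟨k, ⟨k1, k2⟩, k3⟩ := y2 x (M x) α (d1.trans l1) _ (w x) (k + 1) u
        (r ▸ ih fun y q => l y (by simp [q]))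
      refine ⟨k, Finset.forall_mem_insert _ _ _ |>.2 ⟨fun j => ?_, r.le k2⟩, k1⟩
      rw [mt, if_neg ((d2 k j).trans l1).not_gt, if_pos ((d2 k j).trans l1), e1, k3]
  · obtain ⟨a, p⟩ := unc ((cI γ).preimage (f := fun a => θ (a, g)) fun _ _ c =>
      congrArg Prod.fst (θ.injective c))
    refine ⟨_, not_le.1 p, fun c => ?_⟩
    simp only [En, leftInverse_invFun θ.injective _, if_pos ((e3 _ _).2 c)]
  obtain ⟨α, h⟩ := he ⟨n, A⟩
  obtain ⟨δ, d1, d2⟩ := bb α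
  obtain rfl : (e α).1 = n := congrArg Sigma.fst h
  obtain rfl : (e α).2 = A := eq_of_heq (Sigma.mk.inj h).2
  refine ⟨δ, fun s l b c => ?_⟩
  obtain ⟨k, -, p⟩ := (y1 s (M s)).2 α (d1.trans l) b fun K => (c K).imp fun _ c => ⟨trivial, c⟩
  exact ⟨k, fun j => (if_pos ((d2 k j).trans l)).trans (e1 s ▸ p j)⟩

open Classical in
theorem main (hc : (𝔠 : Cardinal.{0}) = ℵ₁) : ∃ X : Set (I → Bool), HFCw X ∧ ∃ U : X → Set X,
    (∀ x, IsOpen (U x) ∧ x ∈ U x) ∧ ∀ D : Set X, DiscreteTopology D → ⋃ x ∈ D, U x ≠ Set.univ := by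
  obtain ⟨m, m1, m2, E, m3, m4, m5⟩ := mx hc
  choose r hr using fun x : range m => x.2
  refine ⟨range m, fun n 𝓕 f1 f2 f3 => ?_, fun x => {z | z.1 (r x) = false}, fun x =>
    ⟨((continuous_apply (A := fun _ : I => Bool) (r x)).comp continuous_subtype_val).isOpen_preimage {false}
      (isOpen_discrete _), (congrFun (hr x) _).symm.trans (m1 _)⟩, fun D d c => ?_⟩
  · have : Uncountable 𝓕 := not_countable_iff.1 f2
    let τ : 𝓕 → Fin n → I := fun F => F.1.orderEmbOfFin (f1 F F.2)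
    have u : ∀ F G i j, τ F i = τ G j → F = G := fun F G i j e => Subtype.ext (f3.elim F.2 G.2
      (Finset.not_disjoint_iff.2 ⟨τ F i, Finset.orderEmbOfFin_mem _ _ i,
        e.symm ▸ Finset.orderEmbOfFin_mem _ _ j⟩))
    obtain ⟨R, r1, r2⟩ := lv _ (hs m2 τ fun p q e => by
      obtain ⟨F, i⟩ := p
      obtain ⟨G, j⟩ := q
      obtain rfl := u F G i j e
      exact congrArg _ ((F.1.orderEmbOfFin _).injective e))
    obtain ⟨g, rfl⟩ := r1.exists_eq_range (let ⟨a, p, _⟩ := r2 ∅ (by simp); ⟨a, p⟩)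
    obtain ⟨δ, p⟩ := m5 n (τ ∘ g)
    refine ⟨_, Subtype.coe_image_subset _ _, r1.image _, fun b => ((cI δ).image m).mono ?_⟩
    rintro _ ⟨⟨s, rfl⟩, q⟩
    refine ⟨s, mem_Iic.2 (not_lt.1 fun l => q ?_), rfl⟩
    obtain ⟨k, c⟩ := p s l b fun K => by
      obtain ⟨_, ⟨k, rfl⟩, c⟩ := r2 ((Finset.univ.image fun j => {F | τ F j ∈ E s}) ∪
        K.image fun y => {F | ∃ j, τ F j = y}) (Finset.forall_mem_union.2 ⟨Finset.forall_mem_image.2
          fun j _ F p => let ⟨_, L, _, q⟩ := (m3 s).1 _ p; ⟨L, fun G r w => u _ _ _ _ (q _ r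
            fun y z => congrFun (w y z) j)⟩, Finset.forall_mem_image.2 fun y _ F ⟨i, p⟩ =>
              ⟨∅, fun G ⟨j, q⟩ _ => u _ _ _ _ (q.trans p.symm)⟩⟩)
      exact ⟨k, (Finset.orderEmbOfFin _ _).injective, fun j => ⟨c _ (Finset.mem_union_left _
        (Finset.mem_image_of_mem _ (Finset.mem_univ j))), fun q => c _ (Finset.mem_union_right _
          (Finset.mem_image_of_mem _ q)) ⟨j, rfl⟩⟩⟩
    exact mem_biUnion ⟨g k, ⟨k, rfl⟩, rfl⟩ ⟨_, c⟩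
  have q : Ds m (r '' D) := by
    rintro _ ⟨x, p, rfl⟩
    obtain ⟨V, v1, v2⟩ := isOpen_induced_iff.1 (isOpen_discrete ({⟨x, p⟩} : Set D))
    obtain ⟨W, w, rfl⟩ := isOpen_induced_iff.1 v1
    obtain ⟨K, u, h1, h2⟩ := isOpen_pi_iff.1 w x.1 (v2.ge rfl)
    refine ⟨K, ?_⟩
    rintro _ ⟨z, q, rfl⟩ e
    exact congrArg (r ·.1) (v2.le (show (⟨z, q⟩ : D) ∈ _ from h2 fun y t => by
      rw [← hr z, e y t, hr x]; exact (h1 y t).2))
  choose! K k using q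
  obtain ⟨R, r1, r2, r3⟩ := hs m2 (fun a (_ : Fin 1) => a) (fun _ _ e => Prod.ext e
    (Subsingleton.elim _ _)) (r '' D)
  replace r2 : (r '' D).Countable := r2.mono fun a p => let ⟨b, q, w⟩ := r3 a p (K a)
    k a p b (r1 q) (fun y t => congrFun (w y t) 0) ▸ q
  obtain ⟨g, hg⟩ := r2.exists_eq_range (let ⟨x, p, _⟩ := mem_iUnion₂.1 (c.ge (mem_univ
    ⟨m o, o, rfl⟩)); ⟨_, x, p, rfl⟩)
  obtain ⟨γ, l⟩ := bd (r2.union (r2.biUnion fun a _ => (K a).countable_toSet))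
  obtain ⟨s, s1, s2⟩ := m4 g γ
  obtain ⟨x, p, w⟩ := mem_iUnion₂.1 (c.ge (mem_univ ⟨m s, s, rfl⟩))
  have := (m3 s).2 (r x) (s2 (hg ▸ fun a p => ⟨(l a (.inl p)).trans s1, K a, fun y t =>
    (l y (.inr (mem_biUnion p t))).trans s1, k a p⟩) ▸ hg ▸ ⟨x, p, rfl⟩)
  exact absurd (this.symm.trans w) (by simp)

end Pool.Agent.H.MP_63e8ca_gt
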